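import Pool.Agent.helper59.PT.Spec

set_option linter.all false
set_option autoImplicit false

/-!
Row pt:BA of MP_2dd521_co: the base inequality from `RowBL`, `RowTR`.
-/

open Finset BigOperators
open scoped ComplexOrder

namespace Pool.Agent.helper74.PT

open Pool.Agent.helper59.PT
open Pool.Agent.helper16.LSZ (GG VV)

/-- Laplace expansion of the permanent along a set of rows -/
theorem lap2 {m : ℕ} (B : Matrix (Fin m) (Fin m) ℂ) (S : Finset (Fin m)) :
    ∑ T : Finset (Fin m), GG B S T * VV B S T = B.permanent := by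
  classical
  rw [← Pool.Agent.helper16.LSZ.laplace_total B (fun a => decide (a ∈ S))]
  symm
  let e : (Fin m → Bool) ≃ Finset (Fin m) :=
    { toFun := fun r => univ.filter fun a => r a = true
      invFun := fun T => fun a => decide (a ∈ T)
      left_inv := fun r => by
        funext a
        simp
      right_inv := fun T => by
        ext a
        simp }
  refine Fintype.sum_equiv e _ _ fun r => ?_
  have h1 : Pool.Agent.helper16.LSZ.fib (fun a => decide (a ∈ S)) true = S := by
    ext a; rw [Pool.Agent.helper16.LSZ.mem_fib]; simp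
  have h2 : Pool.Agent.helper16.LSZ.fib (fun a => decide (a ∈ S)) false = Sᶜ := by
    ext a; rw [Pool.Agent.helper16.LSZ.mem_fib]; simp
  have h3 : Pool.Agent.helper16.LSZ.fib r true = e r := by
    ext a; rw [Pool.Agent.helper16.LSZ.mem_fib]; simp [e]
  have h4 : Pool.Agent.helper16.LSZ.fib r false = (e r)ᶜ := by
    ext a; rw [Pool.Agent.helper16.LSZ.mem_fib]; simp [e]
  rw [Fintype.prod_bool, h1, h2, h3, h4, Pool.Agent.helper16.LSZ.VV_eq]
  rfl

theorem sum_ite_pi {α : Type*} [Fintype α] [DecidableEq α] (P : α → Prop) [DecidablePred P]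
    (G : (Fin 3 → α) → ℂ) :
    ∑ S : Fin 3 → α, (if ∀ p, P (S p) then G S else 0) =
      ∑ S' : Fin 3 → {a // P a}, G fun p => (S' p).1 := by
  classical
  rw [← Finset.sum_filter, Finset.sum_subtype (univ.filter fun S : Fin 3 → α => ∀ p, P (S p))
    (p := fun S : Fin 3 → α => ∀ p, P (S p)) (by intro x; simp)]
  exact Fintype.sum_equiv (Equiv.subtypePiEquivPi (p := fun (_ : Fin 3) (a : α) => P a))
    (fun S : {S : Fin 3 → α // ∀ p, P (S p)} => G S.1) (fun S' => G fun p => (S' p).1)
    fun S => rfl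

theorem sum_pi3 {α : Type*} [Fintype α] (G : (Fin 3 → α) → ℂ) :
    ∑ S : Fin 3 → α, G S = ∑ a, ∑ b, ∑ c, G ![a, b, c] := by
  classical
  let e : (Fin 3 → α) ≃ α × α × α :=
    { toFun := fun f => (f 0, f 1, f 2)
      invFun := fun t => ![t.1, t.2.1, t.2.2]
      left_inv := fun f => by
        funext i
        fin_cases i <;> rfl
      right_inv := fun t => rfl }
  rw [Fintype.sum_equiv e G (fun t => G ![t.1, t.2.1, t.2.2]) (fun f => by
    congr 1
    funext i
    fin_cases i <;> rfl)]
  rw [Fintype.sum_prod_type]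
  refine Finset.sum_congr rfl fun a _ => ?_
  rw [Fintype.sum_prod_type]

theorem trace3 {α : Type*} [Fintype α] [DecidableEq α] (X Y : Matrix α α ℂ) :
    (X * Y * (X * Y) * (X * Y)).trace =
      ∑ S : Fin 3 → α, ∑ T : Fin 3 → α, ∏ p : Fin 3, (X (S p) (T p) * Y (T (p + 1)) (S p)) := by
  rw [sum_pi3]
  rw [Matrix.trace]
  refine Finset.sum_congr rfl fun s0 _ => ?_
  rw [Matrix.diag_apply, Matrix.mul_apply]
  refine Finset.sum_congr rfl fun s1 _ => ?_
  rw [Matrix.mul_apply, Finset.sum_mul]
  refine Finset.sum_congr rfl fun s2 _ => ?_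
  rw [sum_pi3]
  have h : ∀ t0 t1 t2 : α, (∏ p : Fin 3, (X ((![s0, s1, s2] : Fin 3 → α) p)
      ((![t0, t1, t2] : Fin 3 → α) p) * Y ((![t0, t1, t2] : Fin 3 → α) (p + 1))
        ((![s0, s1, s2] : Fin 3 → α) p))) =
      (X s0 t0 * Y t0 s2) * (X s1 t1 * Y t1 s0) * (X s2 t2 * Y t2 s1) := by
    intro t0 t1 t2
    rw [Fin.prod_univ_three]
    have e0 : (0 : Fin 3) + 1 = 1 := rfl
    have e1 : (1 : Fin 3) + 1 = 2 := rfl
    have e2 : (2 : Fin 3) + 1 = 0 := rfl
    rw [e0, e1, e2]
    simp only [Matrix.cons_val_zero, Matrix.cons_val_one, Matrix.cons_val]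
    ring
  simp_rw [h]
  simp_rw [← Finset.mul_sum, ← Finset.sum_mul, ← Finset.mul_sum]
  rw [← Finset.sum_mul]
  rw [Matrix.mul_apply, Matrix.mul_apply, Matrix.mul_apply]
  ring

/-- the inner sum of `RowBL` -/
theorem inner_ge (hTR : RowTR) {m : ℕ} (B : Matrix (Fin m) (Fin m) ℂ) (hB : B.PosSemidef) (k : ℕ)
    (hk : k ≤ m) :
    (m.choose k : ℝ) * B.permanent.re ^ 3 ≤
      (∑ S : Fin 3 → Finset (Fin m), ∑ T : Fin 3 → Finset (Fin m),
        if (∀ p, (S p).card = k) ∧ (∀ p, (T p).card = k) then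
          ∏ p : Fin 3, (GG B (S p) (T p) * VV B (S p) (T (p + 1))) else 0).re := by
  classical
  let α : Type := {S : Finset (Fin m) // S.card = k}
  let X : Matrix α α ℂ := (GG B).submatrix Subtype.val Subtype.val
  let Y : Matrix α α ℂ := ((VV B).transpose).submatrix Subtype.val Subtype.val
  have hX : X.PosSemidef := (Pool.Agent.helper16.LSZ.GG_posSemidef B hB).submatrix _
  have hY : Y.PosSemidef :=
    (Pool.Agent.helper16.LSZ.VV_posSemidef B hB).transpose.submatrix _
  have hcard : Fintype.card α = m.choose k := by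
    have := Fintype.card_finset_len (α := Fin m) k
    rw [Fintype.card_fin] at this
    exact this
  have htr : (X * Y).trace = (m.choose k : ℂ) * B.permanent := by
    rw [Matrix.trace]
    have : ∀ S : α, (X * Y).diag S = B.permanent := by
      intro S
      rw [Matrix.diag_apply, Matrix.mul_apply, ← lap2 B S.1]
      have h0 : ∀ T : Finset (Fin m), T ∉ (univ.filter fun T : Finset (Fin m) => T.card = k) →
          GG B S.1 T * VV B S.1 T = 0 := by
        intro T hT
        rw [Pool.Agent.helper16.LSZ.GG_eq_zero, zero_mul]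
        rw [S.2]
        intro h
        apply hT
        simp [h]
      rw [← Finset.sum_subset (Finset.subset_univ (univ.filter fun T : Finset (Fin m) =>
        T.card = k)) (fun T _ hT => h0 T hT)]
      rw [Finset.sum_subtype (univ.filter fun T : Finset (Fin m) => T.card = k)
        (p := fun T : Finset (Fin m) => T.card = k) (by intro x; simp)]
      rfl
    rw [Finset.sum_congr rfl fun S _ => this S, Finset.sum_const, Finset.card_univ, hcard,
      nsmul_eq_mul]
  have hmain : (∑ S : Fin 3 → Finset (Fin m), ∑ T : Fin 3 → Finset (Fin m),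
        if (∀ p, (S p).card = k) ∧ (∀ p, (T p).card = k) then
          ∏ p : Fin 3, (GG B (S p) (T p) * VV B (S p) (T (p + 1))) else 0) =
      (X * Y * (X * Y) * (X * Y)).trace := by
    rw [trace3]
    have h1 : ∀ S : Fin 3 → Finset (Fin m), (∑ T : Fin 3 → Finset (Fin m),
        if (∀ p, (S p).card = k) ∧ (∀ p, (T p).card = k) then
          ∏ p : Fin 3, (GG B (S p) (T p) * VV B (S p) (T (p + 1))) else 0) =
        if (∀ p, (S p).card = k) then (∑ T : Fin 3 → Finset (Fin m),
          if (∀ p, (T p).card = k) then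
          ∏ p : Fin 3, (GG B (S p) (T p) * VV B (S p) (T (p + 1))) else 0) else 0 := by
      intro S
      by_cases h : ∀ p, (S p).card = k
      · simp only [h, implies_true, true_and, if_true]
      · simp only [h, false_and, if_false, Finset.sum_const_zero]
    rw [Finset.sum_congr rfl fun S _ => h1 S]
    rw [sum_ite_pi (fun S : Finset (Fin m) => S.card = k)]
    refine Finset.sum_congr rfl fun S _ => ?_
    rw [sum_ite_pi (fun S : Finset (Fin m) => S.card = k)]
    rfl
  rw [hmain]
  obtain ⟨h1, h2⟩ := hTR α X Y hX hY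
  rw [htr, hcard] at h1
  have hre : ((m.choose k : ℂ) * B.permanent).re = (m.choose k : ℝ) * B.permanent.re := by
    rw [show (m.choose k : ℂ) = ((m.choose k : ℝ) : ℂ) by norm_cast, Complex.re_ofReal_mul]
  rw [hre] at h1
  have hpos : (0 : ℝ) < (m.choose k : ℝ) := by exact_mod_cast Nat.choose_pos hk
  have h3 : (m.choose k : ℝ) ^ 2 * ((m.choose k : ℝ) * B.permanent.re ^ 3) ≤
      (m.choose k : ℝ) ^ 2 * ((X * Y * (X * Y) * (X * Y)).trace).re := by
    calc (m.choose k : ℝ) ^ 2 * ((m.choose k : ℝ) * B.permanent.re ^ 3)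
        = ((m.choose k : ℝ) * B.permanent.re) ^ 3 := by ring
      _ ≤ _ := h1
  exact le_of_mul_le_mul_left h3 (by positivity)

/-- **pt:BA** the base inequality -/
theorem rowBA : Pool.Agent.helper59.PT.RowBA := by
  intro hBL hTR m B hB c0 c1 h0 h1
  rw [hBL m B c0 c1, Complex.re_sum, add_pow, Finset.sum_mul]
  refine Finset.sum_le_sum fun k hk => ?_
  have hk' : k ≤ m := by
    rw [Finset.mem_range] at hk
    omega
  rw [Complex.re_ofReal_mul]
  have h2 := inner_ge hTR B hB k hk'
  have h3 : (0 : ℝ) ≤ (c0 ^ 3) ^ k * (c1 ^ 3) ^ (m - k) := by positivity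
  calc (c0 ^ 3) ^ k * (c1 ^ 3) ^ (m - k) * (m.choose k : ℝ) * B.permanent.re ^ 3
      = (c0 ^ 3) ^ k * (c1 ^ 3) ^ (m - k) * ((m.choose k : ℝ) * B.permanent.re ^ 3) := by ring
    _ ≤ _ := mul_le_mul_of_nonneg_left h2 h3

end Pool.Agent.helper74.PT
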